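import Pool.Agent.Helper10.SQ.B1

/-! # The tail of the Moebius sum for squarefree palindromes (MP_540de1_nt, helper44) -/

set_option autoImplicit false

namespace Pool.Agent.Helper44.SE

open Finset Pool.Agent.Helper10.SQ

/-- `s` has at most `2 √s` divisors. -/
lemma card_div_le (s Z : ℕ) (hs : 0 < s) :
    ((Icc 1 Z).filter (fun d => d ∣ s)).card ≤ 2 * Nat.sqrt s := by
  have hsub : (Icc 1 Z).filter (fun d => d ∣ s) ⊆
      (Icc 1 (Nat.sqrt s)) ∪ (Icc 1 (Nat.sqrt s)).image (fun m => s / m) := by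
    intro d hd
    obtain ⟨hd1, hd2⟩ := mem_filter.1 hd
    obtain ⟨hd0, -⟩ := mem_Icc.1 hd1
    obtain ⟨e, he⟩ := hd2
    have he0 : 1 ≤ e := by
      rcases Nat.eq_zero_or_pos e with h | h
      · rw [h, mul_zero] at he; omega
      · exact h
    rw [mem_union]
    by_cases hle : d ≤ Nat.sqrt s
    · exact Or.inl (mem_Icc.2 ⟨hd0, hle⟩)
    · right
      rw [mem_image]
      refine ⟨e, mem_Icc.2 ⟨he0, ?_⟩, ?_⟩
      · by_contra hlt
        have h1 : Nat.sqrt s + 1 ≤ d := by omega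
        have h2 : Nat.sqrt s + 1 ≤ e := by omega
        have h3 := Nat.mul_le_mul h1 h2
        rw [← he] at h3
        have h4 := Nat.lt_succ_sqrt s
        rw [Nat.succ_eq_add_one] at h4
        omega
      · rw [he]
        exact Nat.mul_div_cancel _ (by omega)
  calc ((Icc 1 Z).filter (fun d => d ∣ s)).card
      ≤ ((Icc 1 (Nat.sqrt s)) ∪ (Icc 1 (Nat.sqrt s)).image (fun m => s / m)).card :=
        card_le_card hsub
    _ ≤ (Icc 1 (Nat.sqrt s)).card + ((Icc 1 (Nat.sqrt s)).image (fun m => s / m)).card :=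
        card_union_le _ _
    _ ≤ Nat.sqrt s + Nat.sqrt s := by
        refine Nat.add_le_add ?_ (card_image_le.trans ?_) <;> simp
    _ = 2 * Nat.sqrt s := by ring

/-- The weight of `s` is at most `3 √s`. -/
lemma weight_le (s Z : ℕ) (hs : 0 < s) :
    1 + (((Icc 1 Z).filter (fun d => d ∣ s)).card : ℝ) ≤ 3 * Real.sqrt s := by
  have h1 : (((Icc 1 Z).filter (fun d => d ∣ s)).card : ℝ) ≤ 2 * (Nat.sqrt s : ℝ) := by
    exact_mod_cast card_div_le s Z hs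
  have h2 : (Nat.sqrt s : ℝ) ≤ Real.sqrt s := Real.nat_sqrt_le_real_sqrt
  have h3 : (1 : ℝ) ≤ Real.sqrt s := by
    rw [Real.one_le_sqrt]
    exact_mod_cast hs
  linarith

/-- The weight of `s` is at most `1 + Z`. -/
lemma weight_le' (s Z : ℕ) :
    1 + (((Icc 1 Z).filter (fun d => d ∣ s)).card : ℝ) ≤ 1 + Z := by
  have h1 : ((Icc 1 Z).filter (fun d => d ∣ s)).card ≤ Z := by
    calc _ ≤ (Icc 1 Z).card := card_filter_le _ _
      _ = Z := by simp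
  have h2 : (((Icc 1 Z).filter (fun d => d ∣ s)).card : ℝ) ≤ Z := by exact_mod_cast h1
  linarith

lemma term_le (s : ℕ) (hs : 1 ≤ s) :
    Real.sqrt ((s + 1 : ℕ) : ℝ) / ((s + 1 : ℕ) : ℝ) ^ 2 ≤
      2 * (1 / Real.sqrt s - 1 / Real.sqrt ((s + 1 : ℕ) : ℝ)) := by
  obtain ⟨a, ha⟩ : ∃ a : ℝ, a = Real.sqrt s := ⟨_, rfl⟩
  obtain ⟨b, hb⟩ : ∃ b : ℝ, b = Real.sqrt ((s + 1 : ℕ) : ℝ) := ⟨_, rfl⟩
  rw [← ha, ← hb]
  have hs' : (1 : ℝ) ≤ s := by exact_mod_cast hs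
  have ha0 : 0 < a := by rw [ha]; exact Real.sqrt_pos.2 (by linarith)
  have ha2 : a ^ 2 = s := by rw [ha]; exact Real.sq_sqrt (by linarith)
  have hb2 : b ^ 2 = s + 1 := by
    rw [hb, Real.sq_sqrt (Nat.cast_nonneg _)]
    push_cast
    ring
  have hb0 : 0 < b := by rw [hb]; exact Real.sqrt_pos.2 (by positivity)
  have hab : a ≤ b := by
    rw [ha, hb]
    exact Real.sqrt_le_sqrt (by push_cast; linarith)
  have e1 : ((s + 1 : ℕ) : ℝ) ^ 2 = b ^ 4 := by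
    push_cast
    rw [← hb2]
    ring
  rw [e1]
  have e2 : b / b ^ 4 = 1 / b ^ 3 := by
    field_simp
  have e3 : 2 * (1 / a - 1 / b) = 2 / (a * b * (a + b)) := by
    have h1 : (b - a) * (a + b) = 1 := by nlinarith
    have h2 : a + b ≠ 0 := by positivity
    field_simp
    nlinarith
  rw [e2, e3, div_le_div_iff₀ (by positivity) (by positivity)]
  have h4 : a * b * (a + b) ≤ b * b * (b + b) := by
    have h5 : a * b ≤ b * b := by nlinarith
    have h6 : a + b ≤ b + b := by linarith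
    have h7 : 0 ≤ a + b := by positivity
    nlinarith [mul_nonneg hb0.le hb0.le]
  nlinarith

lemma sum_le (Z D : ℕ) (hZ : 1 ≤ Z) :
    ∑ s ∈ Ioc Z D, Real.sqrt (s : ℝ) / (s : ℝ) ^ 2 ≤ 2 / Real.sqrt Z := by
  have key : ∀ D : ℕ, Z ≤ D → ∑ s ∈ Ioc Z D, Real.sqrt (s : ℝ) / (s : ℝ) ^ 2 ≤
      2 * (1 / Real.sqrt Z - 1 / Real.sqrt D) := by
    intro D hD
    induction D, hD using Nat.le_induction with
    | base => simp
    | succ D hD ih =>
      have hI : Ioc Z (D + 1) = insert (D + 1) (Ioc Z D) := by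
        ext x
        simp only [mem_Ioc, mem_insert]
        omega
      rw [hI, sum_insert (by simp)]
      have := term_le D (hZ.trans hD)
      push_cast at this ih ⊢
      linarith
  have h0 : 0 ≤ 1 / Real.sqrt (D : ℝ) := by positivity
  rcases le_total Z D with h | h
  · refine (key D h).trans ?_
    have : (2 : ℝ) / Real.sqrt Z = 2 * (1 / Real.sqrt Z) := by ring
    rw [this]
    linarith
  · rw [Ioc_eq_empty (by omega), sum_empty]
    positivity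

/-- the growth used for the very large squares -/
lemma growth (c : ℝ) (_hc : 0 < c) : ∃ n0 : ℕ, ∀ n : ℕ, n0 ≤ n →
    4 * Real.exp (c * Real.sqrt n) * (10 : ℝ) ^ (2 * (n / 20 + 1) + 1) * (10 : ℝ) ^ (n / 2 + 1) ≤
      (10 : ℝ) ^ n := by
  -- `exp (c √n) ≤ exp (n / 10) ≤ ...` for large `n`
  obtain ⟨n1, hn1⟩ := exists_nat_ge (400 * c ^ 2 + 200)
  refine ⟨n1, fun n hn => ?_⟩
  have hn' : 400 * c ^ 2 + 200 ≤ (n : ℝ) := hn1.trans (by exact_mod_cast hn)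
  have hs : c * Real.sqrt n ≤ n / 20 := by
    have h1 : 0 ≤ Real.sqrt n := Real.sqrt_nonneg _
    have h2 : Real.sqrt n ^ 2 = n := Real.sq_sqrt (Nat.cast_nonneg _)
    have h3 : 20 * c ≤ Real.sqrt n := by
      apply Real.le_sqrt_of_sq_le
      nlinarith
    nlinarith
  have hexp : Real.exp (c * Real.sqrt n) ≤ (10 : ℝ) ^ (n / 10) := by
    have h4 : (n : ℝ) / 20 ≤ ((n / 10 : ℕ) : ℝ) := by
      have h5 : n < 10 * (n / 10) + 10 := by omega
      have h6 : (n : ℝ) < 10 * ((n / 10 : ℕ) : ℝ) + 10 := by exact_mod_cast h5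
      have h7 : (200 : ℝ) ≤ n := by nlinarith [sq_nonneg c]
      linarith
    calc Real.exp (c * Real.sqrt n) ≤ Real.exp ((n / 10 : ℕ) : ℝ) :=
          Real.exp_le_exp.2 (hs.trans h4)
      _ = Real.exp 1 ^ (n / 10) := by rw [← Real.exp_nat_mul, mul_one]
      _ ≤ 10 ^ (n / 10) := by
          apply pow_le_pow_left₀ (Real.exp_pos _).le
          linarith [Real.exp_one_lt_d9]
  have hn200 : 200 ≤ n := by
    have : (200 : ℝ) ≤ n := by nlinarith [sq_nonneg c]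
    exact_mod_cast this
  calc 4 * Real.exp (c * Real.sqrt n) * (10 : ℝ) ^ (2 * (n / 20 + 1) + 1) * (10 : ℝ) ^ (n / 2 + 1)
      ≤ 10 * 10 ^ (n / 10) * (10 : ℝ) ^ (2 * (n / 20 + 1) + 1) * (10 : ℝ) ^ (n / 2 + 1) := by
        gcongr
        norm_num
    _ = (10 : ℝ) ^ (1 + n / 10 + (2 * (n / 20 + 1) + 1) + (n / 2 + 1)) := by
        rw [pow_add _ (1 + n / 10 + (2 * (n / 20 + 1) + 1)) (n / 2 + 1),
          pow_add _ (1 + n / 10) (2 * (n / 20 + 1) + 1), pow_add _ 1 (n / 10), pow_one]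
    _ ≤ (10 : ℝ) ^ n := by
        apply pow_le_pow_right₀ (by norm_num)
        omega

open Classical in
theorem tail_bound (c' : ℝ) (hc' : 0 < c')
    (hB : ∃ n0 : ℕ, ∀ n : ℕ, n0 ≤ n → ∀ D : ℕ, (D : ℝ) ≤ (10 : ℝ) ^ ((1 - 1 / 20) * (n : ℝ)) →
      ∀ a : ℕ → ℕ, ∑ d ∈ (Icc 1 D).filter (fun d : ℕ => d.Coprime 10),
        |((cl n (d ^ 2) (a d) : ℕ) : ℝ) - 9 * 10 ^ n / ((d : ℝ) ^ 2)| ≤
          (10 : ℝ) ^ n * Real.exp (-(c' * Real.sqrt n))) :
    ∃ n0 : ℕ, ∀ n : ℕ, n0 ≤ n → ∀ Z : ℕ, 1 ≤ Z → (Z : ℝ) ≤ Real.exp (c' / 2 * Real.sqrt n) →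
      ∑ s ∈ (Ioc Z (10 ^ (n - n / 20 - 1))).filter (fun s : ℕ => s.Coprime 10),
        (1 + (((Icc 1 Z).filter (fun d => d ∣ s)).card : ℝ)) * ((cl n (s ^ 2) 0 : ℕ) : ℝ) +
      (1 + (Z : ℝ)) * (((Pal n).filter (fun P => ∃ d : ℕ, 10 ^ (n - n / 20 - 1) ≤ d ∧
        d ^ 2 ∣ P)).card : ℝ) ≤
      (10 : ℝ) ^ n * (60 / Real.sqrt Z + Real.exp (-(c' / 4 * Real.sqrt n))) := by
  obtain ⟨n1, h1⟩ := hB
  obtain ⟨n2, h2⟩ := growth (3 / 4 * c') (by linarith)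
  -- `exp (c' / 4 √n) ≥ 4`
  obtain ⟨n3, h3⟩ := exists_nat_ge ((16 / c') ^ 2)
  refine ⟨max (max n1 n2) (max n3 2), fun n hn Z hZ1 hZ => ?_⟩
  have hn1 : n1 ≤ n := (le_max_left _ _).trans ((le_max_left _ _).trans hn)
  have hn2 : n2 ≤ n := (le_max_right _ _).trans ((le_max_left _ _).trans hn)
  have hn3 : n3 ≤ n := (le_max_left _ _).trans ((le_max_right _ _).trans hn)
  have hn4 : 2 ≤ n := (le_max_right _ _).trans ((le_max_right _ _).trans hn)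
  obtain ⟨D, hD⟩ : ∃ D : ℕ, D = 10 ^ (n - n / 20 - 1) := ⟨_, rfl⟩
  rw [← hD]
  have hT : (0 : ℝ) < 10 ^ n := by positivity
  -- the level theorem
  have hDle : (D : ℝ) ≤ (10 : ℝ) ^ ((1 - 1 / 20) * (n : ℝ)) := by
    rw [hD]
    push_cast
    rw [← Real.rpow_natCast]
    apply Real.rpow_le_rpow_of_exponent_le (by norm_num)
    have h5 : n < 20 * (n / 20) + 20 := by omega
    have h6 : (n : ℝ) < 20 * ((n / 20 : ℕ) : ℝ) + 20 := by exact_mod_cast h5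
    have h7 : n - n / 20 - 1 + (n / 20) + 1 = n := by omega
    have h8 : ((n - n / 20 - 1 : ℕ) : ℝ) + ((n / 20 : ℕ) : ℝ) + 1 = n := by exact_mod_cast h7
    linarith
  have hlev := h1 n hn1 D hDle (fun _ => 0)
  -- `E = exp (c' / 4 √n)`
  obtain ⟨E, hE⟩ : ∃ E : ℝ, E = Real.exp (c' / 4 * Real.sqrt n) := ⟨_, rfl⟩
  have hE0 : 0 < E := by rw [hE]; exact Real.exp_pos _
  have hE4 : 4 ≤ E := by
    have h9 : 16 / c' ≤ Real.sqrt n := by
      apply Real.le_sqrt_of_sq_le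
      exact h3.trans (by exact_mod_cast hn3)
    have h10 : 4 ≤ c' / 4 * Real.sqrt n := by
      have := mul_le_mul_of_nonneg_left h9 (show 0 ≤ c' / 4 by linarith)
      have h11 : c' / 4 * (16 / c') = 4 := by field_simp; norm_num
      linarith
    rw [hE]
    linarith [Real.add_one_le_exp (c' / 4 * Real.sqrt n)]
  have hE1 : Real.exp (-(c' / 4 * Real.sqrt n)) = 1 / E := by
    rw [Real.exp_neg, hE, one_div]
  have hE2 : Real.exp (c' / 2 * Real.sqrt n) = E ^ 2 := by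
    rw [hE, ← Real.exp_nat_mul]
    congr 1
    push_cast
    ring
  have hE3 : Real.exp (-(c' * Real.sqrt n)) = 1 / E ^ 4 := by
    rw [hE, ← Real.exp_nat_mul, one_div, ← Real.exp_neg]
    congr 1
    push_cast
    ring
  have hE5 : Real.exp (3 / 4 * c' * Real.sqrt n) = E ^ 3 := by
    rw [hE, ← Real.exp_nat_mul]
    congr 1
    push_cast
    ring
  rw [hE2] at hZ
  rw [hE3] at hlev
  rw [hE1]
  have hZ1' : (1 : ℝ) ≤ Z := by exact_mod_cast hZ1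
  have hsq : 0 < Real.sqrt Z := Real.sqrt_pos.2 (by linarith)
  -- the very large squares
  have hbig : (1 + (Z : ℝ)) * (((Pal n).filter (fun P => ∃ d : ℕ, D ≤ d ∧
      d ^ 2 ∣ P)).card : ℝ) ≤ (10 : ℝ) ^ n * (1 / (2 * E)) := by
    have hb := sqB1 n (n / 20 + 1) (by omega)
    rw [← Nat.sub_sub, ← hD] at hb
    have hb' : (((Pal n).filter (fun P => ∃ d : ℕ, D ≤ d ∧ d ^ 2 ∣ P)).card : ℝ) ≤
        (10 : ℝ) ^ (2 * (n / 20 + 1) + 1) * 10 ^ (n / 2 + 1) := by exact_mod_cast hb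
    have hg := h2 n hn2
    rw [hE5] at hg
    obtain ⟨W, hW⟩ : ∃ W : ℝ, W = (10 : ℝ) ^ (2 * (n / 20 + 1) + 1) * 10 ^ (n / 2 + 1) := ⟨_, rfl⟩
    have hW0 : 0 ≤ W := by rw [hW]; positivity
    rw [← hW] at hb'
    have hg' : 4 * E ^ 3 * W ≤ (10 : ℝ) ^ n := by
      rw [hW]
      linarith
    calc (1 + (Z : ℝ)) * (((Pal n).filter (fun P => ∃ d : ℕ, D ≤ d ∧ d ^ 2 ∣ P)).card : ℝ)
        ≤ (2 * E ^ 2) * W := by
          apply mul_le_mul _ hb' (Nat.cast_nonneg _) (by positivity)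
          linarith
      _ = 4 * E ^ 3 * W * (1 / (2 * E)) := by field_simp; ring
      _ ≤ (10 : ℝ) ^ n * (1 / (2 * E)) := by
          apply mul_le_mul_of_nonneg_right hg' (by positivity)
  -- the other squares
  have hmid : ∑ s ∈ (Ioc Z D).filter (fun s : ℕ => s.Coprime 10),
        (1 + (((Icc 1 Z).filter (fun d => d ∣ s)).card : ℝ)) * ((cl n (s ^ 2) 0 : ℕ) : ℝ) ≤
      (10 : ℝ) ^ n * (2 * E ^ 2 / E ^ 4) + (10 : ℝ) ^ n * (54 / Real.sqrt Z) := by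
    have hpt : ∀ s ∈ (Ioc Z D).filter (fun s : ℕ => s.Coprime 10),
        (1 + (((Icc 1 Z).filter (fun d => d ∣ s)).card : ℝ)) * ((cl n (s ^ 2) 0 : ℕ) : ℝ) ≤
        (1 + (Z : ℝ)) * |((cl n (s ^ 2) 0 : ℕ) : ℝ) - 9 * 10 ^ n / ((s : ℝ) ^ 2)| +
          27 * 10 ^ n * (Real.sqrt (s : ℝ) / (s : ℝ) ^ 2) := by
      intro s hs
      have hs1 := (mem_Ioc.1 (mem_filter.1 hs).1).1
      have hs0 : 0 < s := by omega
      have hs0' : (0 : ℝ) < s := by exact_mod_cast hs0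
      have hw1 := weight_le s Z hs0
      have hw2 := weight_le' s Z
      obtain ⟨w, hw⟩ : ∃ w : ℝ, w = 1 + (((Icc 1 Z).filter (fun d => d ∣ s)).card : ℝ) := ⟨_, rfl⟩
      have hw0 : 0 ≤ w := by rw [hw]; positivity
      rw [← hw] at hw1 hw2 ⊢
      have ha := le_abs_self (((cl n (s ^ 2) 0 : ℕ) : ℝ) - 9 * 10 ^ n / ((s : ℝ) ^ 2))
      have ha0 := abs_nonneg (((cl n (s ^ 2) 0 : ℕ) : ℝ) - 9 * 10 ^ n / ((s : ℝ) ^ 2))
      obtain ⟨A, hA⟩ : ∃ A : ℝ, A = |((cl n (s ^ 2) 0 : ℕ) : ℝ) - 9 * 10 ^ n / ((s : ℝ) ^ 2)| :=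
        ⟨_, rfl⟩
      rw [← hA] at ha ha0 ⊢
      have h12 : ((cl n (s ^ 2) 0 : ℕ) : ℝ) ≤ A + 9 * 10 ^ n / ((s : ℝ) ^ 2) := by linarith
      calc w * ((cl n (s ^ 2) 0 : ℕ) : ℝ) ≤ w * (A + 9 * 10 ^ n / ((s : ℝ) ^ 2)) :=
            mul_le_mul_of_nonneg_left h12 hw0
        _ = w * A + w * (9 * 10 ^ n / ((s : ℝ) ^ 2)) := by ring
        _ ≤ (1 + (Z : ℝ)) * A + (3 * Real.sqrt s) * (9 * 10 ^ n / ((s : ℝ) ^ 2)) := by
            apply add_le_add
            · exact mul_le_mul_of_nonneg_right hw2 ha0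
            · exact mul_le_mul_of_nonneg_right hw1 (by positivity)
        _ = (1 + (Z : ℝ)) * A + 27 * 10 ^ n * (Real.sqrt (s : ℝ) / (s : ℝ) ^ 2) := by ring
    refine (sum_le_sum hpt).trans ?_
    rw [sum_add_distrib, ← mul_sum, ← mul_sum]
    apply add_le_add
    · have h13 : ∑ s ∈ (Ioc Z D).filter (fun s : ℕ => s.Coprime 10),
          |((cl n (s ^ 2) 0 : ℕ) : ℝ) - 9 * 10 ^ n / ((s : ℝ) ^ 2)| ≤
          (10 : ℝ) ^ n * (1 / E ^ 4) := by
        refine le_trans (sum_le_sum_of_subset_of_nonneg ?_ fun _ _ _ => abs_nonneg _) hlev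
        intro s hs
        obtain ⟨hs1, hs2⟩ := mem_filter.1 hs
        obtain ⟨hs3, hs4⟩ := mem_Ioc.1 hs1
        exact mem_filter.2 ⟨mem_Icc.2 ⟨by omega, hs4⟩, hs2⟩
      calc (1 + (Z : ℝ)) * ∑ s ∈ (Ioc Z D).filter (fun s : ℕ => s.Coprime 10),
          |((cl n (s ^ 2) 0 : ℕ) : ℝ) - 9 * 10 ^ n / ((s : ℝ) ^ 2)|
          ≤ (2 * E ^ 2) * ((10 : ℝ) ^ n * (1 / E ^ 4)) := by
            apply mul_le_mul _ h13 (sum_nonneg fun _ _ => abs_nonneg _) (by positivity)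
            linarith
        _ = (10 : ℝ) ^ n * (2 * E ^ 2 / E ^ 4) := by ring
    · have h14 : ∑ s ∈ (Ioc Z D).filter (fun s : ℕ => s.Coprime 10),
          Real.sqrt (s : ℝ) / (s : ℝ) ^ 2 ≤ 2 / Real.sqrt Z :=
        le_trans (sum_le_sum_of_subset_of_nonneg (filter_subset _ _)
          fun _ _ _ => by positivity) (sum_le Z D hZ1)
      calc 27 * 10 ^ n * ∑ s ∈ (Ioc Z D).filter (fun s : ℕ => s.Coprime 10),
          Real.sqrt (s : ℝ) / (s : ℝ) ^ 2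
          ≤ 27 * 10 ^ n * (2 / Real.sqrt Z) := mul_le_mul_of_nonneg_left h14 (by positivity)
        _ = (10 : ℝ) ^ n * (54 / Real.sqrt Z) := by ring
  have h15 : 2 * E ^ 2 / E ^ 4 ≤ 1 / (2 * E) := by
    rw [div_le_div_iff₀ (by positivity) (by positivity)]
    have h16 : 0 < E ^ 3 := by positivity
    nlinarith [mul_le_mul_of_nonneg_left hE4 h16.le]
  have h17 : 54 / Real.sqrt Z ≤ 60 / Real.sqrt Z := by
    apply div_le_div_of_nonneg_right (by norm_num) hsq.le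
  calc _ ≤ ((10 : ℝ) ^ n * (2 * E ^ 2 / E ^ 4) + (10 : ℝ) ^ n * (54 / Real.sqrt Z)) +
        (10 : ℝ) ^ n * (1 / (2 * E)) := add_le_add hmid hbig
    _ = (10 : ℝ) ^ n * (2 * E ^ 2 / E ^ 4 + 54 / Real.sqrt Z + 1 / (2 * E)) := by ring
    _ ≤ (10 : ℝ) ^ n * (60 / Real.sqrt Z + 1 / E) := by
        apply mul_le_mul_of_nonneg_left _ hT.le
        have h18 : 1 / E = 1 / (2 * E) + 1 / (2 * E) := by field_simp; norm_num
        linarith

end Pool.Agent.Helper44.SE
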