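import Pool.Agent.Helper10.SQ.Tail
import Pool.Agent.Helper36.PX.B2E
import Pool.Agent.Helper44.SE.Tail

/-! # Palindromes with a large square divisor (MP_540de1_nt, helper44) -/

set_option autoImplicit false

namespace Pool.Agent.Helper44.SE

open Finset Pool.Agent.Helper10.SQ

/-- `exp (c √n) < 10 ^ (n / 10)` for large `n` -/
lemma exp_lt (c : ℝ) : ∃ n0 : ℕ, ∀ n : ℕ, n0 ≤ n →
    Real.exp (c * Real.sqrt n) < (10 : ℝ) ^ (n / 10) := by
  obtain ⟨n1, hn1⟩ := exists_nat_ge (400 * c ^ 2 + 200)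
  refine ⟨n1, fun n hn => ?_⟩
  have hn' : 400 * c ^ 2 + 200 ≤ (n : ℝ) := hn1.trans (by exact_mod_cast hn)
  have hs : c * Real.sqrt n ≤ n / 20 := by
    have h1 : 0 ≤ Real.sqrt n := Real.sqrt_nonneg _
    have h2 : Real.sqrt n ^ 2 = n := Real.sq_sqrt (Nat.cast_nonneg _)
    have h3 : 20 * c ≤ Real.sqrt n := by
      apply Real.le_sqrt_of_sq_le
      nlinarith
    nlinarith
  have hn200 : 200 ≤ n := by
    have : (200 : ℝ) ≤ n := by nlinarith [sq_nonneg c]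
    exact_mod_cast this
  have h4 : (n : ℝ) / 20 ≤ ((n / 10 : ℕ) : ℝ) := by
    have h5 : n < 10 * (n / 10) + 10 := by omega
    have h6 : (n : ℝ) < 10 * ((n / 10 : ℕ) : ℝ) + 10 := by exact_mod_cast h5
    have h7 : (200 : ℝ) ≤ n := by exact_mod_cast hn200
    linarith
  calc Real.exp (c * Real.sqrt n) ≤ Real.exp ((n / 10 : ℕ) : ℝ) :=
        Real.exp_le_exp.2 (hs.trans h4)
    _ = Real.exp 1 ^ (n / 10) := by rw [← Real.exp_nat_mul, mul_one]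
    _ < 10 ^ (n / 10) := by
        apply pow_lt_pow_left₀ _ (Real.exp_pos _).le (by omega)
        linarith [Real.exp_one_lt_d9]

open Classical in
/-- at most `10 ^ n exp (-c √n)` palindromes with `2 n + 1` digits have a square divisor `d ^ 2`,
`d ≥ 10 ^ (n / 10)`, `d` prime to `10` -/
theorem big_le : ∃ c : ℝ, 0 < c ∧ ∃ n0 : ℕ, ∀ n : ℕ, n0 ≤ n →
    ((big n (10 ^ (n / 10))).card : ℝ) ≤ (10 : ℝ) ^ n * Real.exp (-(c * Real.sqrt n)) := by
  obtain ⟨c', hc', n1, hB⟩ := Pool.Agent.Helper36.PX.sqB2E (1 / 20) (by norm_num)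
  obtain ⟨n2, h2⟩ := tail_bound c' hc' ⟨n1, hB⟩
  obtain ⟨n3, h3⟩ := exp_lt (c' / 2)
  obtain ⟨n4, h4⟩ := exists_nat_ge ((8 * 121 / c') ^ 2)
  refine ⟨c' / 8, by positivity, max n2 (max n3 n4), fun n hn => ?_⟩
  have hn2 : n2 ≤ n := (le_max_left _ _).trans hn
  have hn3 : n3 ≤ n := (le_max_left _ _).trans ((le_max_right _ _).trans hn)
  have hn4 : n4 ≤ n := (le_max_right _ _).trans ((le_max_right _ _).trans hn)
  have hs0 : 0 ≤ Real.sqrt n := Real.sqrt_nonneg _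
  obtain ⟨F, hF⟩ : ∃ F : ℝ, F = Real.exp (c' / 8 * Real.sqrt n) := ⟨_, rfl⟩
  have hF0 : 0 < F := by rw [hF]; exact Real.exp_pos _
  have hF86 : 121 ≤ F := by
    have h9 : 8 * 121 / c' ≤ Real.sqrt n := by
      apply Real.le_sqrt_of_sq_le
      exact h4.trans (by exact_mod_cast hn4)
    have h10 : 121 ≤ c' / 8 * Real.sqrt n := by
      have := mul_le_mul_of_nonneg_left h9 (show 0 ≤ c' / 8 by positivity)
      have h11 : c' / 8 * (8 * 121 / c') = 121 := by field_simp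
      linarith
    rw [hF]
    linarith [Real.add_one_le_exp (c' / 8 * Real.sqrt n)]
  have hF1 : Real.exp (-(c' / 8 * Real.sqrt n)) = 1 / F := by
    rw [Real.exp_neg, hF, one_div]
  have hF2 : Real.exp (-(c' / 4 * Real.sqrt n)) = 1 / F ^ 2 := by
    rw [hF, ← Real.exp_nat_mul, one_div, ← Real.exp_neg]
    congr 1
    push_cast
    ring
  have hF4 : Real.exp (c' / 2 * Real.sqrt n) = F ^ 4 := by
    rw [hF, ← Real.exp_nat_mul]
    congr 1
    push_cast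
    ring
  -- `Z = ⌊exp (c' / 2 √n)⌋`
  obtain ⟨Z, hZ⟩ : ∃ Z : ℕ, Z = ⌊F ^ 4⌋₊ := ⟨_, rfl⟩
  have hF41 : 1 ≤ F ^ 4 := one_le_pow₀ (by linarith)
  have hZ1 : 1 ≤ Z := by
    rw [hZ]
    exact Nat.le_floor (by exact_mod_cast hF41)
  have hZle : (Z : ℝ) ≤ F ^ 4 := by
    rw [hZ]
    exact Nat.floor_le (by positivity)
  have hZlt : F ^ 4 < Z + 1 := by
    rw [hZ]
    exact Nat.lt_floor_add_one _
  have hZ1' : (1 : ℝ) ≤ Z := by exact_mod_cast hZ1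
  have hZhalf : F ^ 4 / 2 ≤ Z := by linarith
  have hsq : F ^ 2 / 2 ≤ Real.sqrt Z := by
    apply Real.le_sqrt_of_sq_le
    have : (F ^ 2 / 2) ^ 2 = F ^ 4 / 4 := by ring
    rw [this]
    linarith
  have hT := h2 n hn2 Z hZ1 (by rw [hF4]; exact hZle)
  have h3' := h3 n hn3
  rw [hF4] at h3'
  have hZ10 : Z < 10 ^ (n / 10) := by
    have : (Z : ℝ) < ((10 ^ (n / 10) : ℕ) : ℝ) := by
      push_cast
      linarith
    exact_mod_cast this
  obtain ⟨D, hD⟩ : ∃ D : ℕ, D = 10 ^ (n - n / 20 - 1) := ⟨_, rfl⟩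
  rw [← hD] at hT
  have hsub : big n (10 ^ (n / 10)) ⊆
      (((Ioc Z D).filter (fun s : ℕ => s.Coprime 10)).biUnion
        (fun s => (Pal n).filter (fun N => N ≡ 0 [MOD s ^ 2]))) ∪
      (Pal n).filter (fun P => ∃ d : ℕ, D ≤ d ∧ d ^ 2 ∣ P) := by
    intro P hP
    unfold big at hP
    rw [mem_filter] at hP
    obtain ⟨hP1, d, hd1, hd2, hd3⟩ := hP
    rw [mem_union]
    by_cases h : d ≤ D
    · left
      rw [mem_biUnion]
      refine ⟨d, ?_, ?_⟩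
      · rw [mem_filter, mem_Ioc]
        exact ⟨⟨by omega, h⟩, hd2⟩
      · rw [mem_filter]
        exact ⟨hP1, (Nat.modEq_zero_iff_dvd).mpr hd3⟩
    · right
      rw [mem_filter]
      exact ⟨hP1, d, by omega, hd3⟩
  have hcard : ((big n (10 ^ (n / 10))).card : ℝ) ≤
      ∑ s ∈ (Ioc Z D).filter (fun s : ℕ => s.Coprime 10), ((cl n (s ^ 2) 0 : ℕ) : ℝ) +
        (((Pal n).filter (fun P => ∃ d : ℕ, D ≤ d ∧ d ^ 2 ∣ P)).card : ℝ) := by
    have h5 := (card_le_card hsub).trans (card_union_le _ _)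
    have h6 := card_biUnion_le (s := (Ioc Z D).filter (fun s : ℕ => s.Coprime 10))
      (t := fun s => (Pal n).filter (fun N => N ≡ 0 [MOD s ^ 2]))
    have h7 := h5.trans (Nat.add_le_add_right h6 _)
    unfold cl
    exact_mod_cast h7
  have h8 : ∑ s ∈ (Ioc Z D).filter (fun s : ℕ => s.Coprime 10), ((cl n (s ^ 2) 0 : ℕ) : ℝ) ≤
      ∑ s ∈ (Ioc Z D).filter (fun s : ℕ => s.Coprime 10),
        (1 + (((Icc 1 Z).filter (fun d => d ∣ s)).card : ℝ)) * ((cl n (s ^ 2) 0 : ℕ) : ℝ) := by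
    refine sum_le_sum fun s _ => ?_
    have h9 : (0 : ℝ) ≤ ((cl n (s ^ 2) 0 : ℕ) : ℝ) := Nat.cast_nonneg _
    have h10 : (0 : ℝ) ≤ (((Icc 1 Z).filter (fun d => d ∣ s)).card : ℝ) := Nat.cast_nonneg _
    nlinarith
  have h11 : (((Pal n).filter (fun P => ∃ d : ℕ, D ≤ d ∧ d ^ 2 ∣ P)).card : ℝ) ≤
      (1 + (Z : ℝ)) * (((Pal n).filter (fun P => ∃ d : ℕ, D ≤ d ∧ d ^ 2 ∣ P)).card : ℝ) := by
    have h12 : (0 : ℝ) ≤ (((Pal n).filter (fun P => ∃ d : ℕ, D ≤ d ∧ d ^ 2 ∣ P)).card : ℝ) :=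
      Nat.cast_nonneg _
    nlinarith
  rw [hF2] at hT
  rw [hF1]
  have h13 : 60 / Real.sqrt Z ≤ 60 / (F ^ 2 / 2) :=
    div_le_div_of_nonneg_left (by norm_num) (by positivity) hsq
  have h14 : 60 / (F ^ 2 / 2) + 1 / F ^ 2 = 121 / F ^ 2 := by
    field_simp
    norm_num
  have h15 : 121 / F ^ 2 ≤ 1 / F := by
    rw [div_le_div_iff₀ (by positivity) hF0]
    nlinarith
  have h16 : (0 : ℝ) < 10 ^ n := by positivity
  calc ((big n (10 ^ (n / 10))).card : ℝ)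
      ≤ ∑ s ∈ (Ioc Z D).filter (fun s : ℕ => s.Coprime 10), ((cl n (s ^ 2) 0 : ℕ) : ℝ) +
        (((Pal n).filter (fun P => ∃ d : ℕ, D ≤ d ∧ d ^ 2 ∣ P)).card : ℝ) := hcard
    _ ≤ (10 : ℝ) ^ n * (60 / Real.sqrt Z + 1 / F ^ 2) := (add_le_add h8 h11).trans hT
    _ ≤ (10 : ℝ) ^ n * (1 / F) := by
        apply mul_le_mul_of_nonneg_left _ h16.le
        linarith

end Pool.Agent.Helper44.SE
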